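import Mathlib
import Pool.Agent.H32.OneRad

set_option autoImplicit false
open MeasureTheory

namespace Pool.Agent.Results.MP_a19bc9_an.AnalyticCounter

/-- Q2 is false: a bounded real-analytic function with the one-radius property need not be
M-harmonic. -/
theorem result :
    ¬ (∀ n : ℕ, 1 ≤ n →
  ∀ (φ : (Fin n → ℂ) → (Fin n → ℂ) → (Fin n → ℂ)),
    (∀ z w, φ z w = (1 - ∑ j, w j * starRingEnd ℂ (z j))⁻¹ •
        (z - ((∑ j, w j * starRingEnd ℂ (z j)) / (∑ j, z j * starRingEnd ℂ (z j))) • z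
          - ((Real.sqrt (1 - ∑ j, ‖z j‖ ^ 2) : ℝ) : ℂ) •
              (w - ((∑ j, w j * starRingEnd ℂ (z j)) / (∑ j, z j * starRingEnd ℂ (z j))) • z))) →
  ∀ (B : Set (Fin n → ℂ)), B = {x : Fin n → ℂ | ∑ j, ‖x j‖ ^ 2 < 1} →
  ∀ (avg : ((Fin n → ℂ) → ℂ) → (Fin n → ℂ) → ℝ → ℂ),
    (∀ u z r, avg u z r = ((MeasureTheory.volume B).toReal : ℂ)⁻¹ *
        ∫ x in B, u (φ z (((r / Real.sqrt (∑ j, ‖x j‖ ^ 2) : ℝ) : ℂ) • x))) →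
  ∀ u : (Fin n → ℂ) → ℂ, AnalyticOnNhd ℝ u B → (∃ M : ℝ, ∀ z ∈ B, ‖u z‖ ≤ M) →
    (∀ z ∈ B, ∃ r : ℝ, 0 < r ∧ r < 1 ∧ avg u z r = u z) →
    ∀ z ∈ B, ∀ r : ℝ, 0 < r → r < 1 → avg u z r = u z) := by
  intro h
  obtain ⟨u, h1, h2, h3, h4⟩ := Pool.Agent.H32.OneRad.main _ (fun _ _ => rfl) _ rfl _ (fun _ _ _ => rfl)
  exact h4 (h 1 le_rfl _ (fun _ _ => rfl) _ rfl _ (fun _ _ _ => rfl) u h1 h2 h3)

end Pool.Agent.Results.MP_a19bc9_an.AnalyticCounter
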